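import Pool.Agent.helper62.EN.SpecX

/-!
# MP_07c750 (quantum unique ergodicity, weight 10), project HALF: from null sets to the absolutely continuous part
-/

set_option autoImplicit false

open scoped MatrixGroups Topology UpperHalfPlane ENNReal
open UpperHalfPlane MeasureTheory Filter Set

namespace Pool.Agent.HF

open Pool.Agent.EN (MG mkM)

/-- If a probability measure `ν` on `M` gives mass at most `1/2` to all Borel sets of area zero then `ν` is at least `f` times the area, with `∫ f ≥ 1/2`. -/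
theorem ac_half (Γ : Subgroup SL(2, ℝ)) (F : Set ℍ) (ν : Measure (MG Γ)) [IsProbabilityMeasure ν] (hm : Measurable (mkM Γ)) (hFf : volume F < ⊤)
    (H : ∀ N : Set (MG Γ), MeasurableSet N → volume (F ∩ {z : ℍ | mkM Γ z ∈ N}) = 0 → ν N ≤ 1 / 2) :
    ∃ f : MG Γ → ℝ≥0∞, Measurable f ∧ 1 / 2 ≤ ∫⁻ z in F, f (mkM Γ z) ∧
      ∀ A : Set (MG Γ), MeasurableSet A → ∫⁻ z in F ∩ {z : ℍ | mkM Γ z ∈ A}, f (mkM Γ z) ≤ ν A := by
  have : IsFiniteMeasure ((volume : Measure ℍ).restrict F) := ⟨by rwa [Measure.restrict_apply_univ]⟩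
  set m : Measure (MG Γ) := ((volume : Measure ℍ).restrict F).map (mkM Γ) with hmdef
  have : IsFiniteMeasure m := by
    rw [hmdef]
    exact Measure.isFiniteMeasure_map _ _
  have hmN : ∀ N : Set (MG Γ), MeasurableSet N → m N = volume (F ∩ {z : ℍ | mkM Γ z ∈ N}) := by
    intro N hN
    rw [hmdef, Measure.map_apply hm hN, Measure.restrict_apply (hm hN), Set.inter_comm]
    rfl
  have hdec := Measure.haveLebesgueDecomposition_add ν m
  refine ⟨ν.rnDeriv m, Measure.measurable_rnDeriv ν m, ?_, ?_⟩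
  · have h1 : ν.singularPart m univ ≤ 1 / 2 := by
      obtain ⟨S, hS, hS1, hS2⟩ := Measure.mutuallySingular_singularPart ν m
      calc ν.singularPart m univ ≤ ν.singularPart m S + ν.singularPart m Sᶜ := by
            rw [← Set.union_compl_self S]
            exact measure_union_le _ _
        _ = ν.singularPart m Sᶜ := by rw [hS1, zero_add]
        _ ≤ ν Sᶜ := Measure.le_iff'.mp (Measure.singularPart_le ν m) _
        _ ≤ 1 / 2 := H _ hS.compl (by rw [← hmN _ hS.compl]; exact hS2)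
    have h2 : ν univ = ν.singularPart m univ + m.withDensity (ν.rnDeriv m) univ := by
      conv_lhs => rw [hdec]
      rw [Measure.add_apply]
    rw [measure_univ, withDensity_apply _ MeasurableSet.univ, Measure.restrict_univ] at h2
    have h3 : ∫⁻ x, ν.rnDeriv m x ∂m = ∫⁻ z in F, ν.rnDeriv m (mkM Γ z) := by
      rw [hmdef, lintegral_map (Measure.measurable_rnDeriv _ _) hm]
    rw [← h3]
    have h4 : (1 : ℝ≥0∞) ≤ 1 / 2 + ∫⁻ x, ν.rnDeriv m x ∂m := by
      calc (1 : ℝ≥0∞) = ν.singularPart m univ + ∫⁻ x, ν.rnDeriv m x ∂m := h2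
        _ ≤ 1 / 2 + ∫⁻ x, ν.rnDeriv m x ∂m := by gcongr
    have h5 : (1 / 2 : ℝ≥0∞) + 1 / 2 = 1 := ENNReal.add_halves 1
    by_contra h6
    push Not at h6
    have h7 : (1 / 2 : ℝ≥0∞) + ∫⁻ x, ν.rnDeriv m x ∂m < 1 / 2 + 1 / 2 := by
      apply ENNReal.add_lt_add_left _ h6
      simp
    rw [h5] at h7
    exact absurd h4 (not_le.mpr h7)
  · intro A hA
    have h1 : ∫⁻ z in F ∩ {z : ℍ | mkM Γ z ∈ A}, ν.rnDeriv m (mkM Γ z) = m.withDensity (ν.rnDeriv m) A := by
      rw [withDensity_apply _ hA, hmdef, Measure.restrict_map hm hA, lintegral_map (Measure.measurable_rnDeriv _ _) hm,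
        Measure.restrict_restrict (hm hA), Set.inter_comm]
      rfl
    rw [h1]
    exact Measure.le_iff'.mp (Measure.withDensity_rnDeriv_le ν m) _

end Pool.Agent.HF
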