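import Pool.Agent.helper84.HF.SpecH
import Pool.Agent.helper62.MS.SpecD

/-!
# MP_07c750 (quantum unique ergodicity, weight 10), project HALF: the interface of the blocks

THEOREM (HALF). `ν(N) ≤ 1/2` for every quantum limit `ν` of a closed hyperbolic surface and every Borel set `N` of area zero. Page: /team-store/HALF_helper84.md.
Blocks: H (additive energy, `helper84/HF/SpecH.lean`), II (leafwise inequality), W (words), G (geometry), P (packets), M (assembly). This file: the notions shared by them and the glue rows.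
Rules as in `SpecH`; namespace `Pool.Agent.HF`. All rows of MS, LL, EN, RS are proved (`MS.A_XXX`, .. in `Pool.Agent.helper62.MS.All`, `Pool.Agent.helper62.EN.All`, `Pool.Agent.helper62.RS.All`).
-/

open scoped MatrixGroups ContDiff Topology UpperHalfPlane ComplexConjugate
open UpperHalfPlane MeasureTheory Filter Set

namespace Pool.Agent.HF

open Pool.Agent.RS Pool.Agent.MS
open Pool.Agent.EN (XG MG mkX mkM fl)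

/-- the set `Y` of `X = Γ \ SL(2, ℝ)` has local entropy at most `ρ`; for `Y = pr⁻¹ N`, `N` of area zero, `ρ = 1/2` this is row NC2 with `α = 1` -/
def LowJ (Γ : Subgroup SL(2, ℝ)) (μ : Measure (XG Γ)) (ρ : ℝ) (Y : Set (XG Γ)) : Prop :=
  ∀ (p : ℕ) (P : XG Γ → Fin p) (J : XG Γ → ℝ) (ε : ℝ), Measurable P → Measurable J → 0 < ε → ε ≤ 1 / 8 →
    (∀ᵐ x ∂μ, ∀ᶠ n : ℕ in atTop, LL.cyl μ (fl Γ 1) P (2 * n + 1) ((fl Γ (-1))^[n] x) ≤ Real.exp (-(((2 * n + 1 : ℕ) : ℝ) * (J x - ε)))) →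
      μ ({x | ρ + 3 * ε < J x} ∩ Y) = 0

/-- the parameters `0 ≤ v < 1` of the unstable arc `g lM v` in the boxes of length `n` and size `b` with centres in `A` -/
def YL (Γ : Subgroup SL(2, ℝ)) (A : Finset SL(2, ℝ)) (n b : ℝ) (g : SL(2, ℝ)) : Set ℝ :=
  {v | 0 ≤ v ∧ v < 1 ∧ ∃ y ∈ A, ∃ γ : Γ, bq b b (b * Real.exp (-n)) (y⁻¹ * (γ : SL(2, ℝ)) * (g * lM v))}

/-- the leafwise inequality with the constant `Θ` for the boxes of length `n`, size `b` and centres in `A` -/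
def LFI (Γ : Subgroup SL(2, ℝ)) (A : Finset SL(2, ℝ)) (n b K W Θ : ℝ) : Prop := ∀ (g : SL(2, ℝ)) (J : Finset ℤ) (a : ℤ → ℂ), (J.card : ℝ) ≤ K →
  (∀ i ∈ J, ∀ j ∈ J, |((i - j : ℤ) : ℝ)| ≤ W) →
    ∫ v in YL Γ A n b g, ‖∑ j ∈ J, a j * Complex.exp (((Real.pi * j * v / 2 : ℝ) : ℂ) * Complex.I)‖ ^ 2 ≤ Θ * ∑ j ∈ J, ‖a j‖ ^ 2

/-- the number of times `i < n` at which `y a_i` is not in a box of length `m`, size `a` with centre in `Am` -/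
noncomputable def bad (Γ : Subgroup SL(2, ℝ)) (Am : Finset SL(2, ℝ)) (a m : ℝ) (n : ℕ) (y : SL(2, ℝ)) : ℕ :=
  {i : ℕ | i < n ∧ ¬ ∃ z ∈ Am, ∃ γ : Γ, bq a a (a * Real.exp (-m)) (z⁻¹ * (γ : SL(2, ℝ)) * (y * aM (i : ℝ)))}.ncard

/-- **Row EZJ** (block W: words; file of helper1 has the same statement or a stronger one). -/
def EZJ_stmt : Prop := ∀ (Γ : Subgroup SL(2, ℝ)) (μ : Measure (XG Γ)) (Y : Set (XG Γ)), QU.SurfaceGroup Γ → IsProbabilityMeasure μ → (∀ t, μ.map (fl Γ t) = μ) → LowJ Γ μ (1 / 2) Y →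
  ∀ a : ℝ, 0 < a → ∀ (η δ : ℝ) (m0 : ℕ), 0 < η → 0 < δ → ∃ (m : ℕ) (Am : Finset SL(2, ℝ)), m0 ≤ m ∧ (Am.card : ℝ) ≤ Real.exp (5 / 8 * m) ∧
    ∀ κ : ℝ, 0 < κ → ∃ n0 : ℕ, ∀ n : ℕ, n0 ≤ n → ∃ A : Finset SL(2, ℝ), (A.card : ℝ) ≤ Real.exp ((1 / 2 + κ) * n) ∧
      μ.real Y - δ ≤ μ.real {x | ∃ y ∈ A, ∃ h : SL(2, ℝ), bq a a (a * Real.exp (-n)) h ∧ x = mkX Γ (y * h)} ∧
      ∀ y ∈ A, (bad Γ Am a m n y : ℝ) ≤ η * n

/-- **Row LFE** (the leafwise inequality for the boxes of a good set `A`; from THE, LEA (part II), GYC (block G)). -/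
def LFE_stmt : Prop := ∀ Γ : Subgroup SL(2, ℝ), QU.SurfaceGroup Γ → ∃ a1 : ℝ, 0 < a1 ∧ ∀ a : ℝ, 0 < a → a ≤ a1 → ∀ C : ℝ, 0 < C → ∃ m1 : ℕ, ∀ m : ℕ, m1 ≤ m → ∃ κ : ℝ, 0 < κ ∧
  ∀ η : ℝ, 0 < η → ∃ n2 : ℕ, ∀ n : ℕ, n2 ≤ n → ∀ A Am : Finset SL(2, ℝ), (A.card : ℝ) ≤ Real.exp ((1 / 2 + κ) * n) → (Am.card : ℝ) ≤ Real.exp (5 / 8 * m) →
    (∀ y ∈ A, (bad Γ Am a m n y : ℝ) ≤ (n : ℝ) / 1000) → LFI Γ A n (16 * a) (C * A.card) (C * Real.exp n) η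

/-- **Row ERG** (short; from EZJ, LFE). `a1` from LFE; `m1` from LFE for `a`, `C`; EZJ with `η = 1/1000`, `δ`, `m0 = m1` gives `m`, `Am`; `κ` from LFE for this `m`; `n2` from LFE for `η`; `n0` from EZJ for `κ`; `n = max n0 (max n2 n1)`. -/
def ERG_stmt : Prop := ∀ (Γ : Subgroup SL(2, ℝ)) (μ : Measure (XG Γ)) (Y : Set (XG Γ)), QU.SurfaceGroup Γ → IsProbabilityMeasure μ → (∀ t, μ.map (fl Γ t) = μ) → LowJ Γ μ (1 / 2) Y →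
  ∃ a1 : ℝ, 0 < a1 ∧ ∀ a : ℝ, 0 < a → a ≤ a1 → ∀ δ η C : ℝ, 0 < δ → 0 < η → 0 < C → ∀ n1 : ℕ, ∃ n : ℕ, n1 ≤ n ∧ ∃ A : Finset SL(2, ℝ),
    μ.real Y - δ ≤ μ.real {x | ∃ y ∈ A, ∃ h : SL(2, ℝ), bq a a (a * Real.exp (-n)) h ∧ x = mkX Γ (y * h)} ∧ LFI Γ A n (16 * a) (C * A.card) (C * Real.exp n) η

theorem ERG_proof (h1 : EZJ_stmt) (h2 : LFE_stmt) : ERG_stmt := by
  intro Γ μ Y hΓ hμ hfl hY
  obtain ⟨a1, ha1, H⟩ := h2 Γ hΓ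
  refine ⟨a1, ha1, ?_⟩
  intro a ha haa δ η C hδ hη hC n1
  obtain ⟨m1, Hm⟩ := H a ha haa C hC
  obtain ⟨m, Am, hm, hAm, HA⟩ := h1 Γ μ Y hΓ hμ hfl hY a ha (1 / 1000) δ m1 (by norm_num) hδ
  obtain ⟨κ, hκ, Hκ⟩ := Hm m hm
  obtain ⟨n2, Hn⟩ := Hκ η hη
  obtain ⟨n0, Hn0⟩ := HA κ hκ
  obtain ⟨A, hA1, hA2, hA3⟩ := Hn0 (max n0 (max n2 n1)) (le_max_left _ _)
  refine ⟨max n0 (max n2 n1), (le_max_right _ _).trans (le_max_right _ _), A, hA2, ?_⟩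
  refine Hn (max n0 (max n2 n1)) ((le_max_left _ _).trans (le_max_right _ _)) A Am hA1 hAm ?_
  intro y hy
  have := hA3 y hy
  linarith

end Pool.Agent.HF
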