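import Pool.Agent.helper84.HF.Defs
import Pool.Agent.helper80.HF.SpecG
import Pool.Agent.helper65.HF.LEAF

/-!
# MP_07c750 (quantum unique ergodicity, weight 10), project HALF: row LFE (the leafwise inequality for the boxes of a good set)
-/

set_option autoImplicit false

open scoped MatrixGroups ContDiff Topology UpperHalfPlane ComplexConjugate
open UpperHalfPlane MeasureTheory Filter Set

namespace Pool.Agent.HF

open Pool.Agent.RS Pool.Agent.MS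
open Pool.Agent.EN (XG MG mkX mkM fl)

theorem LFE_N (n : ℕ) : ∃ N : ℕ, n ≤ N ∧ Real.exp n ≤ (2 : ℝ) ^ N ∧ (2 : ℝ) ^ N < 2 * Real.exp n := by
  have hl : 0 < Real.log 2 := Real.log_pos (by norm_num)
  have hl1 : Real.log 2 < 1 := by
    have := Real.log_two_lt_d9
    linarith
  have h2 : ∀ k : ℕ, (2 : ℝ) ^ k = Real.exp (k * Real.log 2) := by
    intro k
    rw [← Real.rpow_natCast, Real.rpow_def_of_pos (by norm_num), mul_comm]
  refine ⟨⌈(n : ℝ) / Real.log 2⌉₊, ?_, ?_, ?_⟩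
  · have h3 : (n : ℝ) ≤ (n : ℝ) / Real.log 2 := by
      rw [le_div_iff₀ hl]
      nlinarith [(Nat.cast_nonneg n : (0 : ℝ) ≤ n)]
    exact_mod_cast h3.trans (Nat.le_ceil _)
  · rw [h2]
    apply Real.exp_le_exp.mpr
    have := Nat.le_ceil ((n : ℝ) / Real.log 2)
    rwa [div_le_iff₀ hl] at this
  · rw [h2]
    have h4 : (⌈(n : ℝ) / Real.log 2⌉₊ : ℝ) < (n : ℝ) / Real.log 2 + 1 := Nat.ceil_lt_add_one (by positivity)
    have h5 : (⌈(n : ℝ) / Real.log 2⌉₊ : ℝ) * Real.log 2 < n + Real.log 2 := by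
      have := mul_lt_mul_of_pos_right h4 hl
      rwa [add_mul, div_mul_cancel₀ _ hl.ne', one_mul] at this
    calc Real.exp ((⌈(n : ℝ) / Real.log 2⌉₊ : ℝ) * Real.log 2) < Real.exp (n + Real.log 2) := Real.exp_lt_exp.mpr h5
      _ = 2 * Real.exp n := by rw [Real.exp_add, Real.exp_log (by norm_num)]; ring

theorem LFE_x0 (c1 c2 η γ : ℝ) (hη : 0 < η) (hγ : 0 < γ) : ∃ x0 : ℝ, ∀ X : ℝ, x0 ≤ X → c1 ≤ η ^ 4 * X ^ (2 / 3 : ℝ) ∧ c2 ≤ η ^ 4 * X ^ (γ / 2) := by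
  have h1 : Tendsto (fun X : ℝ => η ^ 4 * X ^ (2 / 3 : ℝ)) atTop atTop :=
    (tendsto_rpow_atTop (by norm_num)).const_mul_atTop (by positivity)
  have h2 : Tendsto (fun X : ℝ => η ^ 4 * X ^ (γ / 2)) atTop atTop :=
    (tendsto_rpow_atTop (by positivity)).const_mul_atTop (by positivity)
  obtain ⟨x1, H1⟩ := Filter.eventually_atTop.mp (h1.eventually_ge_atTop c1)
  obtain ⟨x2, H2⟩ := Filter.eventually_atTop.mp (h2.eventually_ge_atTop c2)
  exact ⟨max x1 x2, fun X hX => ⟨H1 X ((le_max_left _ _).trans hX), H2 X ((le_max_right _ _).trans hX)⟩⟩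

/-- the numbers: `X = 2 ^ N` -/
theorem LFE_num (X K Y A C C0 W η γ : ℝ) (hX : 1 ≤ X) (hK : 0 ≤ K) (hY : 0 ≤ Y) (hA : 0 ≤ A) (hC : 0 < C) (hC0 : 0 ≤ C0) (hW : 0 ≤ W)
    (hη : 0 < η) (hγ : 0 < γ) (hγ1 : γ ≤ 1) (hKA : K ≤ C * A) (hYA : Y ≤ C0 * A) (hAX : A ≤ X ^ (1 / 2 + γ / 12))
    (h1 : C ^ 4 ≤ η ^ 4 * X ^ (2 / 3 : ℝ)) (h2 : 4 * W * C ^ 3 * C0 ^ 3 ≤ η ^ 4 * X ^ (γ / 2)) :
    K ^ 4 * X ≤ (η * X) ^ 4 ∧ K ^ 3 * (W * (4 * X)) * (X ^ (-γ) * Y ^ 3) ≤ (η * X) ^ 4 := by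
  have hX0 : 0 < X := by linarith
  have hp : ∀ (s : ℝ) (k : ℕ), (X ^ s) ^ k = X ^ (s * k) := fun s k => by
    rw [Real.rpow_mul_natCast hX0.le]
  have hXn : ∀ k : ℕ, X ^ k = X ^ (k : ℝ) := fun k => (Real.rpow_natCast X k).symm
  have hP0 : 0 ≤ X ^ (1 / 2 + γ / 12) := Real.rpow_nonneg hX0.le _
  constructor
  · have e1 : K ^ 4 ≤ (C * X ^ (1 / 2 + γ / 12)) ^ 4 :=
      pow_le_pow_left₀ hK (hKA.trans (mul_le_mul_of_nonneg_left hAX hC.le)) 4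
    rw [mul_pow, hp] at e1
    have e2 : X ^ ((1 / 2 + γ / 12) * (4 : ℕ)) * X ≤ X ^ (10 / 3 : ℝ) := by
      have : X ^ ((1 / 2 + γ / 12) * (4 : ℕ)) * X = X ^ ((1 / 2 + γ / 12) * (4 : ℕ) + 1) := by
        rw [Real.rpow_add hX0, Real.rpow_one]
      rw [this]
      apply Real.rpow_le_rpow_of_exponent_le hX
      push_cast
      linarith
    calc K ^ 4 * X ≤ (C ^ 4 * X ^ ((1 / 2 + γ / 12) * (4 : ℕ))) * X := mul_le_mul_of_nonneg_right e1 hX0.le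
      _ = C ^ 4 * (X ^ ((1 / 2 + γ / 12) * (4 : ℕ)) * X) := by ring
      _ ≤ (η ^ 4 * X ^ (2 / 3 : ℝ)) * X ^ (10 / 3 : ℝ) := by
          apply mul_le_mul h1 e2 (by positivity) (by positivity)
      _ = η ^ 4 * (X ^ (2 / 3 : ℝ) * X ^ (10 / 3 : ℝ)) := by ring
      _ = (η * X) ^ 4 := by
          rw [← Real.rpow_add hX0, mul_pow, hXn]
          norm_num
  · have e1 : K ^ 3 ≤ (C * X ^ (1 / 2 + γ / 12)) ^ 3 :=
      pow_le_pow_left₀ hK (hKA.trans (mul_le_mul_of_nonneg_left hAX hC.le)) 3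
    have e2 : Y ^ 3 ≤ (C0 * X ^ (1 / 2 + γ / 12)) ^ 3 :=
      pow_le_pow_left₀ hY (hYA.trans (mul_le_mul_of_nonneg_left hAX hC0)) 3
    rw [mul_pow, hp] at e1 e2
    have e3 : X ^ ((1 / 2 + γ / 12) * (3 : ℕ)) * X * (X ^ (-γ) * X ^ ((1 / 2 + γ / 12) * (3 : ℕ))) = X ^ (4 - γ / 2) := by
      have : X ^ ((1 / 2 + γ / 12) * (3 : ℕ)) * X * (X ^ (-γ) * X ^ ((1 / 2 + γ / 12) * (3 : ℕ))) =
          X ^ ((1 / 2 + γ / 12) * (3 : ℕ)) * X ^ (1 : ℝ) * (X ^ (-γ) * X ^ ((1 / 2 + γ / 12) * (3 : ℕ))) := by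
        rw [Real.rpow_one]
      rw [this, ← Real.rpow_add hX0, ← Real.rpow_add hX0, ← Real.rpow_add hX0]
      congr 1
      push_cast
      ring
    calc K ^ 3 * (W * (4 * X)) * (X ^ (-γ) * Y ^ 3)
        ≤ (C ^ 3 * X ^ ((1 / 2 + γ / 12) * (3 : ℕ))) * (W * (4 * X)) * (X ^ (-γ) * (C0 ^ 3 * X ^ ((1 / 2 + γ / 12) * (3 : ℕ)))) := by
          gcongr
      _ = (4 * W * C ^ 3 * C0 ^ 3) * (X ^ ((1 / 2 + γ / 12) * (3 : ℕ)) * X * (X ^ (-γ) * X ^ ((1 / 2 + γ / 12) * (3 : ℕ)))) := by ring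
      _ = (4 * W * C ^ 3 * C0 ^ 3) * X ^ (4 - γ / 2) := by rw [e3]
      _ ≤ (η ^ 4 * X ^ (γ / 2)) * X ^ (4 - γ / 2) := by
          apply mul_le_mul_of_nonneg_right h2 (by positivity)
      _ = η ^ 4 * (X ^ (γ / 2) * X ^ (4 - γ / 2)) := by ring
      _ = (η * X) ^ 4 := by
          rw [← Real.rpow_add hX0, mul_pow, hXn]
          norm_num

theorem LFE_proof (h1 : LEF_stmt) (h2 : GYC_stmt) : LFE_stmt := by
  classical
  intro Γ hΓ
  obtain ⟨a0, C0, m0, ha0, ha0', H⟩ := h2 Γ hΓ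
  refine ⟨a0, ha0, ?_⟩
  intro a ha haa C hC
  refine ⟨max (max m0 1) (2 ^ 17), ?_⟩
  intro m hm
  have hl : 0 < Real.log 2 := Real.log_pos (by norm_num)
  have hl1 : Real.log 2 < 1 := by
    have := Real.log_two_lt_d9
    linarith
  have hm2 : 2 ^ 17 ≤ ⌊(m : ℝ) / Real.log 2⌋₊ := by
    apply Nat.le_floor
    have h3 : ((2 ^ 17 : ℕ) : ℝ) ≤ m := by exact_mod_cast (le_max_right _ _).trans hm
    refine h3.trans ?_
    rw [le_div_iff₀ hl]
    nlinarith [(Nat.cast_nonneg m : (0 : ℝ) ≤ m)]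
  obtain ⟨γ, N0, hγ, hγ1, HN⟩ := h1 _ hm2
  refine ⟨γ / 12, by positivity, ?_⟩
  intro η hη
  obtain ⟨x0, hx0⟩ := LFE_x0 (C ^ 4) (4 * (⌈C⌉₊ : ℝ) * C ^ 3 * (C0 : ℝ) ^ 3) η γ hη hγ
  refine ⟨max (max N0 (400 * m)) ⌈x0⌉₊, ?_⟩
  intro n hn A Am hA hAm hbad
  obtain ⟨N, hnN, hN1, hN2⟩ := LFE_N n
  have hn0 : N0 ≤ n := ((le_max_left _ _).trans (le_max_left _ _)).trans hn
  have hn4 : 400 * m ≤ n := ((le_max_right _ _).trans (le_max_left _ _)).trans hn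
  have hnx : x0 ≤ n := (Nat.le_ceil x0).trans (by exact_mod_cast (le_max_right _ _).trans hn)
  intro g J b hJK hJW
  have hbad' : ∀ y ∈ A, 1000 * ((Finset.range n).filter (fun i : ℕ => ¬ fb Γ a m Am (y * aM (i : ℝ)))).card ≤ n := by
    intro y hy
    have h4 := hbad y hy
    have h5 : bad Γ Am a m n y = ((Finset.range n).filter (fun i : ℕ => ¬ fb Γ a m Am (y * aM (i : ℝ)))).card := by
      unfold bad
      rw [← Set.ncard_coe_finset]
      congr 1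
      ext i
      simp only [Set.mem_setOf_eq, Finset.coe_filter, Finset.mem_range, fb]
    rw [h5] at h4
    have h6 : (1000 : ℝ) * (((Finset.range n).filter (fun i : ℕ => ¬ fb Γ a m Am (y * aM (i : ℝ)))).card : ℝ) ≤ n := by linarith
    exact_mod_cast h6
  obtain ⟨Y, G, hY1, hY2, hY3, hY4, hY5⟩ := H a n m N A Am g ha haa (((le_max_left _ _).trans (le_max_left _ _)).trans hm) hn4 hN1 hN2 hAm hbad'
  -- the finite set of the right end points of the cells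
  have hae : (YL Γ A n (16 * a) g : Set ℝ) =ᵐ[volume] (YL Γ A n (16 * a) g ∩ cellU N Y : Set ℝ) := by
    have hfin : (((fun u : ℕ => ((u : ℝ) + 1) / 2 ^ N) '' (Y : Set ℕ))).Finite := Y.finite_toSet.image _
    have h7 : ∀ᵐ v ∂(volume : Measure ℝ), v ∉ ((fun u : ℕ => ((u : ℝ) + 1) / 2 ^ N) '' (Y : Set ℕ)) :=
      hfin.countable.ae_notMem volume
    filter_upwards [h7] with v hv
    apply propext
    constructor
    · intro hvY
      refine ⟨hvY, ?_⟩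
      obtain ⟨hv0, hv1, hvb⟩ := hvY
      obtain ⟨u, hu, hu1, hu2⟩ := hY3 v hv0 hv1.le hvb
      unfold cellU
      simp only [Set.mem_iUnion]
      refine ⟨u, hu, hu1, lt_of_le_of_ne hu2 ?_⟩
      intro h8
      exact hv ⟨u, hu, h8.symm⟩
    · intro hvY
      exact hvY.1
  rw [setIntegral_congr_set hae]
  rcases J.eq_empty_or_nonempty with hJe | hJne
  · subst hJe
    simp
  · have hX1 : (1 : ℝ) ≤ 2 ^ N := one_le_pow₀ (by norm_num)
    have hx : x0 ≤ (2 : ℝ) ^ N := by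
      refine hnx.trans (le_trans ?_ hN1)
      have := Real.add_one_le_exp (n : ℝ)
      linarith
    obtain ⟨hc1, hc2⟩ := hx0 _ hx
    have hAX : (A.card : ℝ) ≤ ((2 : ℝ) ^ N) ^ (1 / 2 + γ / 12) := by
      refine hA.trans ?_
      have h9 : Real.exp ((1 / 2 + γ / 12) * n) = (Real.exp n) ^ (1 / 2 + γ / 12) := by
        rw [← Real.exp_mul]
        ring_nf
      rw [h9]
      exact Real.rpow_le_rpow (Real.exp_pos _).le hN1 (by positivity)
    obtain ⟨hn1, hn2⟩ := LFE_num ((2 : ℝ) ^ N) J.card Y.card A.card C C0 ⌈C⌉₊ η γ hX1 (Nat.cast_nonneg _) (Nat.cast_nonneg _) (Nat.cast_nonneg _) hC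
      (Nat.cast_nonneg _) (Nat.cast_nonneg _) hη hγ hγ1 hJK (by exact_mod_cast hY2) hAX hc1 hc2
    have hCW : ∀ j ∈ J, J.min' hJne ≤ j ∧ j < J.min' hJne + (⌈C⌉₊ : ℤ) * 2 ^ (N + 2) := by
      intro j hj
      refine ⟨J.min'_le j hj, ?_⟩
      have h10 := hJW j hj (J.min' hJne) (J.min'_mem hJne)
      have h11 : ((j - J.min' hJne : ℤ) : ℝ) ≤ C * Real.exp n := (le_abs_self _).trans h10
      have h12 : C * Real.exp n < (⌈C⌉₊ : ℝ) * 2 ^ (N + 2) := by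
        have h13 : C ≤ (⌈C⌉₊ : ℝ) := Nat.le_ceil C
        calc C * Real.exp n ≤ C * 2 ^ N := mul_le_mul_of_nonneg_left hN1 hC.le
          _ < C * 2 ^ (N + 2) := by
            apply mul_lt_mul_of_pos_left _ hC
            apply pow_lt_pow_right₀ (by norm_num)
            omega
          _ ≤ (⌈C⌉₊ : ℝ) * 2 ^ (N + 2) := mul_le_mul_of_nonneg_right h13 (by positivity)
      have h14 : ((j - J.min' hJne : ℤ) : ℝ) < (((⌈C⌉₊ : ℤ) * 2 ^ (N + 2) : ℤ) : ℝ) := by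
        push_cast
        push_cast at h11
        linarith
      have h15 : j - J.min' hJne < (⌈C⌉₊ : ℤ) * 2 ^ (N + 2) := by exact_mod_cast h14
      linarith
    have hmain := HN N (hn0.trans hnN) Y G hY1 hY4 hY5 ⌈C⌉₊ J (J.min' hJne) b (η * 2 ^ N) (YL Γ A n (16 * a) g ∩ cellU N Y) hCW (by positivity) hn1 ?_ Set.inter_subset_right
    · have h16 : η * 2 ^ N / 2 ^ N = η := by
        field_simp
      rw [h16] at hmain
      have h19 : (fun v : ℝ => ‖∑ j ∈ J, b j * Complex.exp (((Real.pi * j * v / 2 : ℝ) : ℂ) * Complex.I)‖ ^ 2) = fun v : ℝ => ‖esum J b v‖ ^ 2 := by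
        funext v
        simp only [esum]
        congr 2
        refine Finset.sum_congr rfl fun j _ => ?_
        rw [mul_comm Complex.I]
      rw [h19]
      exact hmain
    · have h17 : (2 : ℝ) ^ (-(γ * N)) = ((2 : ℝ) ^ N) ^ (-γ) := by
        rw [← Real.rpow_natCast, ← Real.rpow_mul (by norm_num)]
        congr 1
        ring
      have h18 : ((⌈C⌉₊ : ℝ) * 2 ^ (N + 2)) = (⌈C⌉₊ : ℝ) * (4 * 2 ^ N) := by ring
      rw [h17, h18]
      exact hn2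

end Pool.Agent.HF
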