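import Pool.Agent.helper84.HF.AllH
import Pool.Agent.helper62.HF.Fin
import Pool.Agent.helper59.HF.PUX
import Pool.Agent.helper59.HF.LFV
import Pool.Agent.helper59.HF.LCG
import Pool.Agent.helper23.HF.CLL
import Pool.Agent.helper23.HF.DVF
import Pool.Agent.helper23.HF.AS4
import Pool.Agent.helper78.HF.FRB
import Pool.Agent.helper62.HF.OPL
import Pool.Agent.helper1.HF.DUL
import Pool.Agent.helper62.HF.SCX
import Pool.Agent.helper62.HF.CTG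
import Pool.Agent.helper30.HF.TAI
import Pool.Agent.helper95.HF.OPB
import Pool.Agent.helper87.HF.BWM
import Pool.Agent.helper84.HF.HM1
import Pool.Agent.helper18.HF.HLF

/-!
# MP_07c750, HALF: assembly
-/

set_option autoImplicit false

open scoped MatrixGroups ContDiff Topology UpperHalfPlane ComplexConjugate
open UpperHalfPlane MeasureTheory Filter Set

namespace Pool.Agent.HV

theorem A_PUX : PUX_stmt := PUX_proof
theorem A_CLL : CLL_stmt := CLL_proof RS.A_FL0 RS.A_CV1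
theorem A_FRB : FRB_stmt := FRB_proof MS.A_NM3
theorem A_DVF : DVF_stmt := DVF_proof RS.A_FL3 RS.A_FL0 RS.A_GLC RS.A_CV1
theorem A_LFV : LFV_stmt := LFV_proof
theorem A_OPL : OPL_stmt := OPL_proof A_CLL A_DVF A_LFV RS.A_GLC RS.A_CV1 RS.A_FL0
theorem A_SCX : SCX_stmt := SCX_proof
theorem A_TAI : TAI_stmt := TAI_proof A_SCX MS.A_OSC MS.A_GKF MS.A_STB RS.A_CV1 RS.A_FL0 RS.A_GMG
theorem A_OPB : OPB_stmt := OPB_proof A_PUX A_CLL A_FRB A_DVF A_OPL A_TAI MS.A_NM3 MS.A_SYB MS.A_STB RS.A_TRV RS.A_CV1 RS.A_FL0 RS.A_GFD RS.A_GBD RS.A_GLC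
theorem A_DUL : DUL_stmt := DUL_proof RS.A_GDU RS.A_GYN RS.A_GWB RS.A_GFD RS.A_GBD
theorem A_AS4 : AS4_stmt := AS4_proof MS.A_SYB MS.A_REP A_DUL RS.A_GLC RS.A_GR2 RS.A_GWB RS.A_GFD RS.A_GBD RS.A_GPE RS.A_FL0
theorem A_LCG : LCG_stmt := LCG_proof
theorem A_CTG : CTG_stmt := CTG_proof
theorem A_BWM : BWM_stmt := BWM_proof
theorem A_HM1 : HM1_stmt := HM1_proof MS.A_STB MS.A_NM3 MS.A_EQ4 MS.A_INW MS.A_BXM A_AS4 A_OPB A_LCG A_CTG A_BWM RS.A_CV1 RS.A_FL0 RS.A_GFD RS.A_GBD RS.A_GLC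
theorem A_HLF : HLF_stmt := HLF_proof A_HM1 MS.A_MU MS.A_STB EN.A_XFL QU.A_DOM QU.A_DOB

end Pool.Agent.HV

namespace Pool.Agent.HF

/-- **HALF.** Quantum limits of closed hyperbolic surfaces give mass at most `1/2` to Borel sets of area zero. -/
theorem A_half (Γ : Subgroup SL(2, ℝ)) (F : Set ℍ) (r : ℕ → ℝ) (φ : ℕ → ℍ → ℂ) (ν : Measure (EN.MG Γ))
    (hΓ : QU.SurfaceGroup Γ) (hF : IsFundamentalDomain Γ F (volume : Measure ℍ)) (hr : Tendsto r atTop atTop) (hφ : ∀ k, RS.Eig Γ (r k) (φ k))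
    (hn : ∀ k, ∫ z in F, ‖φ k z‖ ^ 2 = 1) (hfin : IsFiniteMeasure ν)
    (hν : ∀ V : EN.MG Γ → ℝ, Continuous V → Tendsto (fun k => ∫ z in F, V (EN.mkM Γ z) * ‖φ k z‖ ^ 2) atTop (𝓝 (∫ x, V x ∂ν)))
    (N : Set (EN.MG Γ)) (hN : MeasurableSet N) (hN0 : volume {z : ℍ | EN.mkM Γ z ∈ N} = 0) : ν N ≤ 1 / 2 :=
  HV.half A_ERG HV.A_HLF MS.A_NC2 EN.A_XFL Γ F r φ ν hΓ hF hr hφ hn hfin hν N hN hN0

end Pool.Agent.HF
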