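import Pool.Agent.helper62.MS.All
import Pool.Agent.helper1.HF.CYS
import Pool.Agent.helper1.HF.EZJ
import Pool.Agent.helper1.HF.MRK
import Pool.Agent.helper10.HF.GCN
import Pool.Agent.helper21.HF.VAS
import Pool.Agent.helper23.HF.BSE
import Pool.Agent.helper23.HF.GPR
import Pool.Agent.helper23.HF.GTM
import Pool.Agent.helper23.HF.STJ
import Pool.Agent.helper24.HF.GPO
import Pool.Agent.helper24.HF.HPR
import Pool.Agent.helper29.HF.GCL
import Pool.Agent.helper38.HF.SMH
import Pool.Agent.helper4.HF.HBS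
import Pool.Agent.helper4.HF.HSM
import Pool.Agent.helper4.HF.NCH
import Pool.Agent.helper4.HF.POR
import Pool.Agent.helper41.HF.SHF
import Pool.Agent.helper49.HF.FEJ
import Pool.Agent.helper51.HF.HCH
import Pool.Agent.helper55.HF.COL
import Pool.Agent.helper63.HF.KVM
import Pool.Agent.helper63.HF.NIC
import Pool.Agent.helper63.HF.THE
import Pool.Agent.helper65.HF.LEAF
import Pool.Agent.helper80.HF.GUB
import Pool.Agent.helper80.HF.GYC
import Pool.Agent.helper84.HF.LFE
import Pool.Agent.helper87.HF.CHX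
import Pool.Agent.helper87.HF.PNQ
import Pool.Agent.helper99.HF.FOU
import Pool.Agent.helper99.HF.GRO

/-!
# MP_07c750, HALF: assembly of the blocks H (additive energy), II (leafwise inequality), W (words), G (geometry)
-/

set_option autoImplicit false

namespace Pool.Agent.HF

theorem A_HBS : HBS_stmt := HBS_proof
theorem A_HCH : HCH_stmt := HCH_proof
theorem A_HSM : HSM_stmt := HSM_proof
theorem A_HPR : HPR_stmt := HPR_proof
theorem A_BSE : BSE_stmt := BSE_proof A_HBS A_HCH A_HSM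
theorem A_KVM : KVM_stmt := KVM_proof A_HBS A_HCH A_HSM A_HPR
theorem A_NCH : NCH_stmt := NCH_proof A_HCH
theorem A_NIC : NIC_stmt := NIC_proof A_HBS A_HCH A_NCH
theorem A_POR : POR_stmt := POR_proof A_HCH
theorem A_SMH : SMH_stmt := SMH_proof
theorem A_COL : COL_stmt := COL_proof
theorem A_FEJ : FEJ_stmt := FEJ_proof
theorem A_CHX : CHX_stmt := CHX_proof
theorem A_FOU : FOU_stmt := FOU_proof A_COL A_FEJ A_CHX
theorem A_SHF : SHF_stmt := SHF_proof A_HBS A_HCH A_HSM
theorem A_VAS : VAS_stmt := VAS_proof A_SMH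
theorem A_PNQ : PNQ_stmt := PNQ_proof
theorem A_STJ : STJ_stmt := STJ_proof A_HBS A_HCH A_HSM A_FOU A_SHF A_VAS
theorem A_GRO : GRO_stmt := GRO_proof A_HBS A_NIC A_POR A_PNQ A_STJ
theorem A_THE : THE_stmt := THE_proof A_BSE A_KVM A_GRO A_HBS
theorem A_LEF : LEF_stmt := LEF_proof A_THE
theorem A_GUB : GUB_stmt := GUB_proof EN.A_XDS
theorem A_GCN : GCN_stmt := GCN_proof
theorem A_GTM : GTM_stmt := GTM_proof
theorem A_GPR : GPR_stmt := GPR_proof
theorem A_GCL : GCL_stmt := GCL_proof A_GUB A_GCN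
theorem A_GPO : GPO_stmt := GPO_proof A_GUB A_GCN
theorem A_GYC : GYC_stmt := GYC_proof A_GTM A_GPR A_GCL A_GPO
theorem A_LFE : LFE_stmt := LFE_proof A_LEF A_GYC
theorem A_CYS : CYS_stmt := CYS_proof EN.A_XFL EN.A_XLF
theorem A_MRK : MRK_stmt := MRK_proof
theorem A_EZJ : EZJ_stmt := EZJ_proof LL.A_LOC MS.A_SML A_CYS A_MRK EN.A_PAR EN.A_XFL EN.A_XTX EN.A_XNB
theorem A_ERG : ERG_stmt := ERG_proof A_EZJ A_LFE

end Pool.Agent.HF
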