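import Mathlib

/-!
# MP_07c750 (quantum unique ergodicity, weight 10), project HALF: a partition of unity, and the leafwise inequality for coefficients which depend on the point
-/

set_option autoImplicit false

open scoped ContDiff
open MeasureTheory Set

namespace Pool.Agent.HF

/-- a smooth partition of unity: `∑ chi (x - j) = 1` -/
noncomputable def chi (x : ℝ) : ℝ := Real.smoothTransition (x + 1) - Real.smoothTransition x

theorem chi_smooth : ContDiff ℝ ∞ chi := by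
  unfold chi
  exact (Real.smoothTransition.contDiff.comp (contDiff_id.add contDiff_const)).sub Real.smoothTransition.contDiff

theorem chi_nonneg (x : ℝ) : 0 ≤ chi x := by
  unfold chi
  rcases le_total x 0 with h | h
  · rw [Real.smoothTransition.zero_of_nonpos h, sub_zero]
    exact Real.smoothTransition.nonneg _
  · rw [Real.smoothTransition.one_of_one_le (by linarith : (1 : ℝ) ≤ x + 1)]
    linarith [Real.smoothTransition.le_one x]

theorem chi_le_one (x : ℝ) : chi x ≤ 1 := by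
  unfold chi
  linarith [Real.smoothTransition.le_one (x + 1), Real.smoothTransition.nonneg x]

theorem chi_supp (x : ℝ) (h : chi x ≠ 0) : |x| ≤ 1 := by
  by_contra h1
  push Not at h1
  apply h
  unfold chi
  rcases lt_abs.mp h1 with h2 | h2
  · rw [Real.smoothTransition.one_of_one_le (by linarith : (1 : ℝ) ≤ x + 1), Real.smoothTransition.one_of_one_le h2.le, sub_self]
  · rw [Real.smoothTransition.zero_of_nonpos (by linarith), Real.smoothTransition.zero_of_nonpos (by linarith), sub_self]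

theorem chi_sum (N : ℕ) (x : ℝ) (h : |x| ≤ N) : ∑ j ∈ Finset.Icc (-(N : ℤ)) N, chi (x - j) = 1 := by
  have key : ∀ M : ℕ, ∑ j ∈ Finset.Icc (-(M : ℤ)) M, chi (x - j) = Real.smoothTransition (x + M + 1) - Real.smoothTransition (x - M) := by
    intro M
    induction M with
    | zero => simp [chi]
    | succ M ih =>
      have h1 : Finset.Icc (-((M + 1 : ℕ) : ℤ)) ((M + 1 : ℕ) : ℤ) = insert (-((M : ℤ) + 1)) (insert ((M : ℤ) + 1) (Finset.Icc (-(M : ℤ)) M)) := by
        ext j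
        simp only [Finset.mem_Icc, Finset.mem_insert]
        push_cast
        omega
      rw [h1, Finset.sum_insert, Finset.sum_insert, ih]
      · unfold chi
        push_cast
        have e1 : x - (-((M : ℝ) + 1)) + 1 = x + (M + 1) + 1 := by ring
        have e2 : x - (-((M : ℝ) + 1)) = x + M + 1 := by ring
        have e3 : x - ((M : ℝ) + 1) + 1 = x - M := by ring
        rw [e1, e2, e3]
        ring
      · simp only [Finset.mem_Icc]
        omega
      · simp only [Finset.mem_Icc, Finset.mem_insert]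
        omega
  rw [key, Real.smoothTransition.one_of_one_le, Real.smoothTransition.zero_of_nonpos, sub_zero]
  · linarith [(abs_le.mp h).2]
  · linarith [(abs_le.mp h).1]

/-- **Leafwise inequality for variable coefficients.** -/
theorem LVD (J : Finset ℤ) (Y : Set ℝ) (hY1 : Y ⊆ Icc 0 1) (hYm : MeasurableSet Y) (Θ : ℝ)
    (H : ∀ c : ℤ → ℂ, ∫ v in Y, ‖∑ j ∈ J, c j * Complex.exp (((Real.pi * j * v / 2 : ℝ) : ℂ) * Complex.I)‖ ^ 2 ≤ Θ * ∑ j ∈ J, ‖c j‖ ^ 2)
    (a a' : ℤ → ℝ → ℂ) (ha : ∀ j, Continuous (a' j)) (hd : ∀ j v, HasDerivAt (a j) (a' j v) v) :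
    ∫ v in Y, ‖∑ j ∈ J, a j v * Complex.exp (((Real.pi * j * v / 2 : ℝ) : ℂ) * Complex.I)‖ ^ 2 ≤
      2 * Θ * (∑ j ∈ J, ‖a j 0‖ ^ 2 + ∫ u in (0 : ℝ)..1, ∑ j ∈ J, ‖a' j u‖ ^ 2) := by
  set e : ℤ → ℝ → ℂ := fun j v => Complex.exp (((Real.pi * j * v / 2 : ℝ) : ℂ) * Complex.I) with he
  have hec : ∀ j, Continuous (e j) := by
    intro j
    simp only [he]
    fun_prop
  have hac : ∀ j, Continuous (a j) := fun j => continuous_iff_continuousAt.mpr fun v => (hd j v).continuousAt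
  have hYf : volume Y < ⊤ := lt_of_le_of_lt (measure_mono hY1) (by simp)
  have : IsFiniteMeasure (volume.restrict Y) := ⟨by rwa [Measure.restrict_apply_univ]⟩
  have hYI : ∀ f : ℝ → ℝ, Continuous f → IntegrableOn f Y := fun f hf =>
    (hf.integrableOn_Icc (a := 0) (b := 1)).mono_set hY1
  have hII : ∀ f : ℝ → ℝ, Continuous f → IntegrableOn f (Ioc 0 1) := fun f hf =>
    (hf.integrableOn_Icc (a := 0) (b := 1)).mono_set Ioc_subset_Icc_self
  set g0 : ℝ → ℝ := fun v => ‖∑ j ∈ J, a j 0 * e j v‖ ^ 2 with hg0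
  set g1 : ℝ → ℝ → ℝ := fun v u => ‖∑ j ∈ J, a' j u * e j v‖ ^ 2 with hg1
  have hg0c : Continuous g0 := by
    simp only [hg0]
    exact (continuous_finsetSum _ fun j _ => continuous_const.mul (hec j)).norm.pow 2
  have hg1c : Continuous (fun p : ℝ × ℝ => g1 p.1 p.2) := by
    simp only [hg1]
    exact (continuous_finsetSum _ fun j _ => ((ha j).comp continuous_snd).mul ((hec j).comp continuous_fst)).norm.pow 2
  have hpt : ∀ v ∈ Y, ‖∑ j ∈ J, a j v * e j v‖ ^ 2 ≤ 2 * g0 v + 2 * ∫ u in Ioc (0 : ℝ) 1, g1 v u := by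
    intro v hv
    have hv01 := hY1 hv
    set S : ℝ → ℂ := fun u => ∑ j ∈ J, a' j u * e j v with hS
    have hSc : Continuous S := continuous_finsetSum _ fun j _ => (ha j).mul continuous_const
    have h1 : ∑ j ∈ J, a j v * e j v = ∑ j ∈ J, a j 0 * e j v + ∫ u in (0 : ℝ)..v, S u := by
      have h2 : ∀ j, a j v = a j 0 + ∫ u in (0 : ℝ)..v, a' j u := by
        intro j
        rw [intervalIntegral.integral_eq_sub_of_hasDerivAt (fun u _ => hd j u) ((ha j).intervalIntegrable _ _)]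
        ring
      simp only [hS]
      have h20 : ∫ u in (0 : ℝ)..v, ∑ j ∈ J, a' j u * e j v = ∑ j ∈ J, ∫ u in (0 : ℝ)..v, a' j u * e j v :=
        intervalIntegral.integral_finsetSum (f := fun j u => a' j u * e j v) (fun j _ => (Continuous.mul (ha j) continuous_const).intervalIntegrable _ _)
      rw [h20, ← Finset.sum_add_distrib]
      refine Finset.sum_congr rfl fun j _ => ?_
      rw [intervalIntegral.integral_mul_const, ← add_mul, ← h2 j]
    have h3 : ‖∫ u in (0 : ℝ)..v, S u‖ ≤ ∫ u in Ioc (0 : ℝ) 1, ‖S u‖ := by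
      calc ‖∫ u in (0 : ℝ)..v, S u‖ ≤ ∫ u in (0 : ℝ)..v, ‖S u‖ := intervalIntegral.norm_integral_le_integral_norm hv01.1
        _ = ∫ u in Ioc (0 : ℝ) v, ‖S u‖ := intervalIntegral.integral_of_le hv01.1
        _ ≤ ∫ u in Ioc (0 : ℝ) 1, ‖S u‖ := by
            apply setIntegral_mono_set (hII _ hSc.norm)
            · exact Filter.Eventually.of_forall fun u => norm_nonneg _
            · exact (Ioc_subset_Ioc_right hv01.2).eventuallyLE
    have h4 : (∫ u in Ioc (0 : ℝ) 1, ‖S u‖) ^ 2 ≤ ∫ u in Ioc (0 : ℝ) 1, ‖S u‖ ^ 2 := by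
      set m := ∫ u in Ioc (0 : ℝ) 1, ‖S u‖ with hm
      have h5 : 0 ≤ ∫ u in Ioc (0 : ℝ) 1, (‖S u‖ - m) ^ 2 := integral_nonneg fun u => sq_nonneg _
      have h6 : ∫ u in Ioc (0 : ℝ) 1, (‖S u‖ - m) ^ 2 = (∫ u in Ioc (0 : ℝ) 1, ‖S u‖ ^ 2) - m ^ 2 := by
        have h7 : ∀ u, (‖S u‖ - m) ^ 2 = ‖S u‖ ^ 2 - 2 * m * ‖S u‖ + m ^ 2 := fun u => by ring
        simp only [h7]
        rw [integral_add, integral_sub, integral_const_mul, ← hm]
        · simp
          ring
        · exact hII _ (hSc.norm.pow 2)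
        · exact hII _ (continuous_const.mul hSc.norm)
        · exact hII _ ((hSc.norm.pow 2).sub (continuous_const.mul hSc.norm))
        · exact integrable_const _
      linarith
    have h8 : ‖∑ j ∈ J, a j v * e j v‖ ≤ ‖∑ j ∈ J, a j 0 * e j v‖ + ∫ u in Ioc (0 : ℝ) 1, ‖S u‖ := by
      rw [h1]
      exact (norm_add_le _ _).trans (add_le_add le_rfl h3)
    have h9 : ‖∑ j ∈ J, a j v * e j v‖ ^ 2 ≤ (‖∑ j ∈ J, a j 0 * e j v‖ + ∫ u in Ioc (0 : ℝ) 1, ‖S u‖) ^ 2 :=
      pow_le_pow_left₀ (norm_nonneg _) h8 2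
    have h10 : (‖∑ j ∈ J, a j 0 * e j v‖ + ∫ u in Ioc (0 : ℝ) 1, ‖S u‖) ^ 2 ≤
        2 * ‖∑ j ∈ J, a j 0 * e j v‖ ^ 2 + 2 * (∫ u in Ioc (0 : ℝ) 1, ‖S u‖) ^ 2 := by
      nlinarith [sq_nonneg (‖∑ j ∈ J, a j 0 * e j v‖ - ∫ u in Ioc (0 : ℝ) 1, ‖S u‖)]
    calc ‖∑ j ∈ J, a j v * e j v‖ ^ 2 ≤ _ := h9.trans h10
      _ ≤ 2 * g0 v + 2 * ∫ u in Ioc (0 : ℝ) 1, g1 v u := by
          simp only [hg0, hg1]
          linarith
  have hint2 : Integrable (fun p : ℝ × ℝ => g1 p.1 p.2) ((volume.restrict Y).prod (volume.restrict (Ioc (0 : ℝ) 1))) := by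
    rw [Measure.prod_restrict]
    refine IntegrableOn.mono_set ?_ (Set.prod_mono hY1 Ioc_subset_Icc_self)
    exact hg1c.continuousOn.integrableOn_compact (isCompact_Icc.prod isCompact_Icc)
  have hinner : Integrable (fun v => ∫ u in Ioc (0 : ℝ) 1, g1 v u) (volume.restrict Y) := hint2.integral_prod_left
  have hLc : Continuous (fun v => ‖∑ j ∈ J, a j v * e j v‖ ^ 2) :=
    (continuous_finsetSum _ fun j _ => (hac j).mul (hec j)).norm.pow 2
  calc ∫ v in Y, ‖∑ j ∈ J, a j v * e j v‖ ^ 2 ≤ ∫ v in Y, (2 * g0 v + 2 * ∫ u in Ioc (0 : ℝ) 1, g1 v u) := by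
        refine setIntegral_mono_on (hYI _ hLc) ?_ hYm hpt
        exact ((hYI _ hg0c).const_mul 2).add (hinner.const_mul 2)
    _ = 2 * (∫ v in Y, g0 v) + 2 * ∫ v in Y, ∫ u in Ioc (0 : ℝ) 1, g1 v u := by
        rw [integral_add ((hYI _ hg0c).const_mul 2) (hinner.const_mul 2), integral_const_mul, integral_const_mul]
    _ = 2 * (∫ v in Y, g0 v) + 2 * ∫ u in Ioc (0 : ℝ) 1, ∫ v in Y, g1 v u := by
        rw [integral_integral_swap hint2]
    _ ≤ 2 * (Θ * ∑ j ∈ J, ‖a j 0‖ ^ 2) + 2 * ∫ u in Ioc (0 : ℝ) 1, Θ * ∑ j ∈ J, ‖a' j u‖ ^ 2 := by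
        refine add_le_add (mul_le_mul_of_nonneg_left (H fun j => a j 0) (by norm_num)) (mul_le_mul_of_nonneg_left ?_ (by norm_num))
        refine setIntegral_mono_on hint2.integral_prod_right ?_ measurableSet_Ioc fun u _ => H fun j => a' j u
        exact hII _ (continuous_const.mul (continuous_finsetSum _ fun j _ => (ha j).norm.pow 2))
    _ = 2 * Θ * (∑ j ∈ J, ‖a j 0‖ ^ 2 + ∫ u in (0 : ℝ)..1, ∑ j ∈ J, ‖a' j u‖ ^ 2) := by
        rw [integral_const_mul, intervalIntegral.integral_of_le zero_le_one]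
        ring

end Pool.Agent.HF
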