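import Mathlib

/-!
# MP_07c750 (quantum unique ergodicity, weight 10), project HALF: block H (additive energy of sets which are porous on most scales), rows `hf:X`

THEOREM (HALF). Let `M = Γ \ ℍ` be a closed hyperbolic surface, `φ_k` normalised eigenfunctions of the Laplacian with eigenvalues `1/4 + r_k²`, `r_k → ∞`,
`|φ_k|² dz → ν` weakly. Then `ν(N) ≤ 1/2` for every Borel set `N` of area zero: at least half of the mass of every quantum limit is absolutely continuous.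
Page with the whole proof: /team-store/HALF_helper84.md. This file: PART I of the page, pure finite combinatorics (Mathlib only).

RULES. Row `hf:XXX`: file `Pool/Agent/<seat>/HF/XXX.lean`, `import Pool.Agent.helper84.HF.SpecH`, `set_option autoImplicit false`, namespace `Pool.Agent.HF`,
auxiliary lemmas prefixed `XXX_`, theorem `XXX_proof (h : YYY_stmt) .. : XXX_stmt` with the rows listed in `from` as hypotheses. No straight double quotes, no convert / congr!.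
All entropies are entropies of a function under the UNIFORM distribution on a finite set (also after conditioning). `L = log 2`.
-/

set_option autoImplicit false

open Finset

namespace Pool.Agent.HF

open Classical in
/-- the entropy of `f x`, `x` uniform in the finite set `X` -/
noncomputable def H {α ι : Type} (X : Finset α) (f : α → ι) : ℝ :=
  ∑ i ∈ X.image f, Real.negMulLog (((X.filter (fun x => f x = i)).card : ℝ) / X.card)

/-- the first `j` of the `N` binary digits of `u` -/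
def px (N j u : ℕ) : ℕ := u / 2 ^ (N - j)

/-- the additive quadruples -/
def QE (Y : Finset ℕ) : Finset (ℕ × ℕ × ℕ × ℕ) :=
  (Y ×ˢ Y ×ˢ Y ×ˢ Y).filter (fun q => q.1 + q.2.1 = q.2.2.1 + q.2.2.2)

/-- `3 log |Y| - log E(Y)` -/
noncomputable def G0 (Y : Finset ℕ) : ℝ := 3 * Real.log Y.card - Real.log (QE Y).card

/-- `k`-tuples of elements of `R` -/
def Rk (k : ℕ) (R : Finset ℕ) : Finset (Fin k → ℕ) := Fintype.piFinset (fun _ => R)

/-- the sum of a tuple -/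
def sm {k : ℕ} (u : Fin k → ℕ) : ℕ := ∑ i, u i

/-- the variance of the uniform distribution on `X` -/
noncomputable def vp (X : Finset ℕ) : ℝ := (∑ u ∈ X, ∑ v ∈ X, ((u : ℝ) - v) ^ 2) / (2 * (X.card : ℝ) ^ 2)

/-- the node: the elements of `R` with the first digits `p` -/
def nd (R : Finset ℕ) (N i p : ℕ) : Finset ℕ := R.filter (fun u => px N i u = p)

/-- the node is nice: its variance is at least `2^(-96)` times the square of its length -/
def nic (R : Finset ℕ) (N i p : ℕ) : Prop := (4 : ℝ) ^ (N - i) / 2 ^ 96 ≤ vp (nd R N i p)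

open Classical in
/-- the probability that the node of level `i` is nice -/
noncomputable def qq (R : Finset ℕ) (N i : ℕ) : ℝ := ((R.filter (fun u => nic R N i (px N i u))).card : ℝ) / R.card

/-- the conditional entropy of the digits `j+1, .., j+m` given the first `j` digits -/
noncomputable def hh (R : Finset ℕ) (N m j : ℕ) : ℝ := H R (px N (j + m)) - H R (px N j)

/-! ## Entropy -/

/-- **Row HBS** (basic facts; short-medium). `negMulLog ≥ 0` on `[0, 1]`. `H X f ≤ log |X.image f|`: Jensen for the concave `negMulLog` (or Gibbs). If `f` is injective on `X` all fibres have one element: `Σ = |X| negMulLog(1/|X|) = log |X|`.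
Monotonicity: if `f x = f y → g x = g y` on `X` then the fibres of `g` are unions of fibres of `f` and `negMulLog (Σ a_i) ≤ Σ negMulLog a_i` for `a_i ≥ 0`, `Σ a_i ≤ 1` (as `log` is increasing: `-(Σ a) log (Σ a) ≤ Σ -a_i log a_i`). -/
def HBS_stmt : Prop := ∀ (α ι κ : Type) (X : Finset α) (f : α → ι) (g : α → κ), X.Nonempty →
  0 ≤ H X f ∧ (∀ T : Finset ι, (∀ x ∈ X, f x ∈ T) → H X f ≤ Real.log T.card) ∧
  ((∀ x ∈ X, ∀ y ∈ X, f x = f y → x = y) → H X f = Real.log X.card) ∧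
  ((∀ x ∈ X, ∀ y ∈ X, f x = f y → g x = g y) → H X g ≤ H X f)

open Classical in
/-- **Row HCH** (chain rule; medium). For `j ∈ X.image g` let `X_j` be the fibre, `b_j = |X_j|/|X|`; `|{f = i, g = j}|/|X| = b_j c_ij`, `c_ij = |{x ∈ X_j : f x = i}|/|X_j|`; `negMulLog (b c) = b negMulLog c + c negMulLog b` (`Real.negMulLog_mul`) and `Σ_i c_ij = 1`. -/
def HCH_stmt : Prop := ∀ (α ι κ : Type) (X : Finset α) (f : α → ι) (g : α → κ), X.Nonempty →
  H X (fun x => (f x, g x)) = H X g + ∑ j ∈ X.image g, (((X.filter (fun x => g x = j)).card : ℝ) / X.card) * H (X.filter (fun x => g x = j)) f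

/-- **Row HSM** (submodularity; medium; from HCH, or directly). By HCH (conditioning on `h`) it is enough to see `H Z (f, g) ≤ H Z f + H Z g` for the fibres `Z` of `h`. Subadditivity: `Σ_ij c_ij log (c_ij / (a_i b_j)) ≥ 0` with the marginals `a`, `b` (`log t ≤ t - 1`: `Σ c_ij log (a_i b_j / c_ij) ≤ Σ a_i b_j - 1 ≤ 0`). -/
def HSM_stmt : Prop := ∀ (α ι κ lam : Type) (X : Finset α) (f : α → ι) (g : α → κ) (h : α → lam), X.Nonempty →
  H X (fun x => (f x, g x, h x)) + H X h ≤ H X (fun x => (f x, h x)) + H X (fun x => (g x, h x))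

/-- **Row HPR** (independence; short-medium). Two independent coordinates: the fibre of `(i, j)` in the product is the product of the fibres; `negMulLog (a b) = a negMulLog b + b negMulLog a` and the probabilities add up to `1`. -/
def HPR_stmt : Prop := ∀ (α β ι κ : Type) (X : Finset α) (Z : Finset β) (f : α → ι) (g : β → κ), X.Nonempty → Z.Nonempty →
  H (X ×ˢ Z) (fun z => (f z.1, g z.2)) = H X f + H Z g ∧ H (X ×ˢ Z) (fun z => f z.1) = H X f ∧ H (X ×ˢ Z) (fun z => g z.2) = H Z g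

/-! ## Small doubling from energy, and iterated sums -/

/-- **Row BSE** (Balog-Szemeredi-Gowers in entropy form; medium; from HBS, HCH, HSM). `X = QE Y` (not empty: diagonal quadruples), `q = (a, b, c, d)`, `S = a + b = c + d`, `g₀ = G0 Y`, `l = log |Y|`. (1) `H X id = log |X| = 3 l - g₀`. Conditionally on `S = s` the set is `P_s × P_s`, `P_s = {(a, b) ∈ Y² : a + b = s}`, so with HCH `H X id = H X S + 2 Σ_s P(s) log |P_s|` and
`H X (a, b) = H X S + Σ_s P(s) log |P_s|`: `H X id = 2 H X (a,b) - H X S`. (2) `H X (a, b) ≤ 2 l`, so `H X S ≤ 4 l - H X id = l + g₀`. (3) `(a, b)` and `(a, S)` determine each other: `H X (a, b) ≤ H X S + l` (given `S`, `a ∈ Y`), so `2 H(a,b) = H X id + H S ≥ H X id + H(a,b) - l`: `H(a,b) ≥ 2 l - g₀`.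
(4) `Σ_s P(s) log |P_s| = H X id - H (a,b) ≥ 3 l - g₀ - 2 l = l - g₀`. (5) submodularity with `a - d` (in `ℤ`): `H(a - d, a, b) + H(a - d) ≤ H(a - d, a) + H(a - d, b)`; `(a - d, a, b)` determines `q`; `(a - d, a)` has at most `|Y|²` values; `a - d = c - b`, so `(a - d, b)` has at most `|Y|²` values:
`H(a - d) ≤ 4 l - (3 l - g₀) = l + g₀`. (6) `H(a - d | S) ≤ H(a - d)`; given `S = s`: `a` and `c` are independent and uniform in `R_s = {a ∈ Y : s - a ∈ Y}` (`a ↦ (a, s - a)` is a bijection to `P_s`), `a - d = a + c - s`: so `Σ_s P(s) h_s ≤ l + g₀`, `h_s = H (R_s ×ˢ R_s) (+)`, `h_s ≥ log |R_s|`.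
(7) `Σ_s P(s) ((h_s - log |R_s|) + 4 (l - log |R_s|)) ≤ 2 g₀ + 4 g₀ = 6 g₀`, all terms `≥ 0`: some `s` has `(h_s - log |R_s|) + 4 (l - log |R_s|) ≤ 6 g₀`. -/
def BSE_stmt : Prop := ∀ Y : Finset ℕ, Y.Nonempty → ∃ R ⊆ Y, R.Nonempty ∧ Real.log Y.card - 4 * G0 Y ≤ Real.log R.card ∧
  H (R ×ˢ R) (fun z => z.1 + z.2) ≤ Real.log R.card + 8 * G0 Y ∧ 0 ≤ G0 Y

/-- **Row KVM** (iterated sums, after Kaimanovich-Vershik and Madiman; medium; from HBS, HCH, HSM, HPR). Induction on `k`; `k = 0`: `sm` is injective on `Rk 1 R`. Step: `H(u_0 + .. + u_(k+1)) ≤ H(u_0 + .. + u_k) + H(u_0 + u_(k+1)) - log |R|`. On `X = Rk (k+2) R` (or on `R ×ˢ Rk k R ×ˢ R`: the entropy does not change under a bijection of the spaces) let `x = u_0`, `y = u_1 + .. + u_k`, `z = u_(k+1)`: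
HSM with `f = x + y`, `g = x + z`, `h = x + y + z`: `H(f, g, h) + H(h) ≤ H(f, h) + H(g, h)`. `(f, g, h)` and `(x, y, z)` determine each other, `(f, h)` and `(x + y, z)`, `(g, h)` and `(x + z, y)`; by independence (HPR) `log |R| + H(y) + log |R| + H(h) ≤ H(x + y) + log |R| + H(x + z) + H(y)`. -/
def KVM_stmt : Prop := ∀ (R : Finset ℕ) (k : ℕ), R.Nonempty →
  H (Rk (k + 1) R) sm ≤ Real.log R.card + k * (H (R ×ˢ R) (fun z => z.1 + z.2) - Real.log R.card)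

/-! ## Nice nodes and porosity -/

/-- **Row NCH** (a node which is not nice carries little entropy; medium; from HBS, HCH). `Z` = the node minus `p 2^(N-i)`, contained in `[0, A)`, `A = 2^(N-i)`; variance `v < A²/2^96`. Chebyshev (the variance in the pair form; mean `z̄`): the points with `|z - z̄| ≥ A/2^32` have proportion `≤ 2^64/2^96 = 2^(-32)`. The others have at most `3` values of
`px N (i+32)` (an interval of length `2 A/2^32`, cells of length `A/2^32`; if `N - i < 32` then the cells are single points and `A/2^32 < 1`: also at most `3` values). By HCH with the indicator `E₀` of the first set: `H ≤ log 2 + log 3 + 2^(-32) · log (number of values) ≤ 3 log 2` (the number of values of `px N (i+32)` in the node is at most `2^32`). -/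
def NCH_stmt : Prop := ∀ (R : Finset ℕ) (N i p : ℕ), (∀ u ∈ R, u < 2 ^ N) → i ≤ N → (nd R N i p).Nonempty → ¬ nic R N i p →
  H (nd R N i p) (px N (i + 32)) ≤ 3 * Real.log 2

/-- **Row NIC** (many nice nodes; medium; from HBS, HCH, NCH). For `i + 32 ≤ N`... for all `i ≤ N`: `H R (px N (i+32)) - H R (px N i) = Σ_p P(p) H (nd R N i p) (px N (i+32)) ≤ 3 log 2 + 32 log 2 · qq R N i` (HCH with `g = px N i`, a function of `px N (i+32)`; NCH; in a nice node at most `2^32` values). `px N j = px N N = id` for `j ≥ N`, `px N 0 = 0` on `R`. Sum over `i = 0, .., N`: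
the left sum telescopes: `Σ_(i ≤ N) (H_(i+32) - H_i) = Σ_(j = N+1)^(N+32) H_j - Σ_(j < 32) H_j ≥ 32 log |R| - 32 · 32 log 2` (`H_j ≤ j log 2` for `j < 32`). So `32 log |R| - 1024 log 2 ≤ 3 log 2 (N+1) + 32 log 2 Σ q_i`, and `log |R| ≥ (7/32) N log 2`: `Σ q_i ≥ 7N/32 - 32 - 3(N+1)/32 ≥ N/16` for `N ≥ 1024`. -/
def NIC_stmt : Prop := ∀ (R : Finset ℕ) (N : ℕ), R.Nonempty → (∀ u ∈ R, u < 2 ^ N) → 1024 ≤ N → 7 / 32 * (N * Real.log 2) ≤ Real.log R.card →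
  (N : ℝ) / 16 ≤ ∑ i ∈ Finset.range (N + 1), qq R N i

open Classical in
/-- **Row POR** (porous digits; medium; from HBS, HCH, HSM). `hh = H(U^(j+m) | U^(j))`. Let `ζ u = true` iff `G u j`. `H(px (j+m)) ≤ H(px (j+m), px j, ζ) = H(px j, ζ) + Σ P(p, ζ) H(fibre)`, `H(px j, ζ) ≤ H(px j) + log 2`; in the fibre `(p, true)` the function `px N (j+m)` has at most `2^(3m/4)` values (hypothesis), in `(p, false)` at most `2^m`:
`hh ≤ log 2 + P(true) (3/4) m log 2 + P(false) m log 2`. -/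
def POR_stmt : Prop := ∀ (R : Finset ℕ) (N m j : ℕ) (G : ℕ → ℕ → Prop), R.Nonempty → (∀ u ∈ R, u < 2 ^ N) → j + m ≤ N →
  (∀ p : ℕ, ((R.filter (fun u => G u j ∧ px N j u = p)).image (px N (j + m))).card ^ 4 ≤ 2 ^ (3 * m)) →
    hh R N m j ≤ Real.log 2 + 3 / 4 * (m * Real.log 2) + 1 / 4 * (m * Real.log 2) * (((R.filter (fun u => ¬ G u j)).card : ℝ) / R.card)

/-! ## One scale: the Fourier estimate -/

/-- **Row SMH** (entropy and second moment; medium; pure). `f` with values in `ℕ`, `E (f - z₀)² ≤ V`. Gibbs: `H ≤ Σ_i p_i log (1/w_i) + log Σ_i w_i` for positive weights; `w_i = 1/(1 + (i - z₀)²)`, `Σ_(i ∈ ℤ) w_i ≤ 5` (`i = ⌊z₀⌋, ⌊z₀⌋ + 1`: at most `1` each; the others at distance `≥ n`, `n = 1, 2, ..` on each side: `2 Σ 1/(1+n²) ≤ 2 (1/2 + Σ_(n ≥ 2) 1/n²) ≤ 2.3`, or `≤ 2 · π²/6 < 3.3` in a cruder way gives `5.3`: use `1/(1+n²) ≤ 1/2` for `n = 1`),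
and `Σ p_i log (1 + (i - z₀)²) ≤ log (1 + V)` (concavity of `log`). -/
def SMH_stmt : Prop := ∀ (α : Type) (X : Finset α) (f : α → ℕ) (z₀ V : ℝ), X.Nonempty → 0 ≤ V →
  (∑ x ∈ X, ((f x : ℝ) - z₀) ^ 2) ≤ V * X.card → H X f ≤ Real.log 5 + Real.log (1 + V)

/-- **Row COL** (collision probability and entropy; short-medium). `H X f = Σ p_i log (1/p_i) ≥ -log (Σ p_i²)` (Jensen). -/
def COL_stmt : Prop := ∀ (α : Type) (X : Finset α) (f : α → ℕ) (c : ℝ), X.Nonempty → 0 < c →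
  (((X ×ˢ X).filter (fun z => f z.1 = f z.2)).card : ℝ) ≤ c * (X.card : ℝ) ^ 2 → -Real.log c ≤ H X f

/-- the characteristic function: the average of `exp (2 π i l f(x) / M)` over `X` -/
noncomputable def ch {α : Type} (X : Finset α) (f : α → ℕ) (M : ℕ) (l : ℤ) : ℂ :=
  (∑ x ∈ X, Complex.exp (2 * Real.pi * Complex.I * (l : ℂ) * (f x : ℂ) / (M : ℂ))) / X.card

/-- **Row FEJ** (the collision probability of the cells, by Fejer's kernel; medium; pure). `M = 2^a`, cells of length `w = 2^b`, `b ≤ a`; `f x mod M`, cell `(f x mod M) / w`. `Δ(d) = 2 (1 - |d|/(2w))₊` for `d ∈ ℤ/M` (representatives; if `2w > M`, i.e. `a = b`, the claim is trivial since the right side is `≥ 4 ≥ 1`): if two points are in one cell then `|d| < w` and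
`Δ ≥ 1`. `Δ(d) = (1/w) #{(s, t) ∈ [0, 2w)² : s - t ≡ d mod M}` (as `2w ≤ M`), so `Δ(d) = (1/M) Σ_(l mod M) Δ^(l) e(l d/M)`, `Δ^(l) = (1/w) |Σ_(0 ≤ t < 2w) e(l t/M)|² ≥ 0`, `Δ^(0) = 4w`, `Δ^(l) ≤ 4w`, and `Δ^(l) ≤ (1/w) (1/|sin (π l/M)|)² ≤ M²/(4 w l²)` for `0 < |l| ≤ M/2` (`|sin π x| ≥ 2|x|`).
So `Σ_(x,y) 1[same cell] ≤ Σ_(x,y) Δ(f x - f y) = (|X|²/M) Σ_l |ch l|² Δ^(l)`. Split at `K`: `≤ |X|² (4w/M) (1 + Σ_(0 < |l| ≤ K) |ch l|²) + |X|² (1/M) Σ_(|l| > K) M²/(4 w l²)`, the last sum `≤ |X|² (M/(4w)) (2/K)`. -/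
def FEJ_stmt : Prop := ∀ (α : Type) (X : Finset α) (f : α → ℕ) (a b K : ℕ), X.Nonempty → b ≤ a → 1 ≤ K →
  (((X ×ˢ X).filter (fun z => f z.1 % 2 ^ a / 2 ^ b = f z.2 % 2 ^ a / 2 ^ b)).card : ℝ) ≤
    (4 * ((2 : ℝ) ^ b / 2 ^ a) * (1 + 2 * ∑ l ∈ Finset.Icc 1 K, ‖ch X f (2 ^ a) (l : ℤ)‖ ^ 2) + (2 : ℝ) ^ a / (2 ^ b * 2 * K)) * (X.card : ℝ) ^ 2

/-- **Row CHX** (characteristic functions of products and of nice nodes; short-medium; pure). (1) The average over the product is the product of the averages (`Finset.prod_univ_sum`, `Fintype.piFinset`; `e(l (c + Σ u_i)/M)` is the product). (2) `‖ch X id M l‖² = |X|⁻² Σ_(u,v) cos (2 π l (u - v)/M) ≤ 1 - (11/24) θ² |X|⁻² Σ (u-v)² = 1 - (11/12) θ² vp X ≤ exp (-(11/12) θ² vp X)`, `θ = 2 π l/M`,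
as `|θ (u - v)| ≤ 1` and `cos x ≤ 1 - x²/2 + x⁴/24 ≤ 1 - 11x²/24` for `|x| ≤ 1` (`Real.cos_le_..`, or `Real.cos_bound`: `|cos x - (1 - x²/2)| ≤ |x|⁴ · 5/96`). -/
def CHX_stmt : Prop := (∀ (k : ℕ) (X : Fin k → Finset ℕ) (c M : ℕ) (l : ℤ), 0 < M → (∀ i, (X i).Nonempty) →
    ‖ch (Fintype.piFinset X) (fun u => c + sm u) M l‖ = ∏ i, ‖ch (X i) id M l‖) ∧
  (∀ (α : Type) (X : Finset α) (f : α → ℕ) (M : ℕ) (l : ℤ), X.Nonempty → ‖ch X f M l‖ ≤ 1) ∧
  ∀ (X : Finset ℕ) (M : ℕ) (l : ℤ) (B : ℝ), X.Nonempty → 0 < M → (∀ u ∈ X, ∀ v ∈ X, |(u : ℝ) - v| ≤ B) → 2 * Real.pi * |(l : ℝ)| / M * B ≤ 1 →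
    ‖ch X id M l‖ ^ 2 ≤ Real.exp (-(11 / 12 * (2 * Real.pi * l / M) ^ 2 * vp X))

/-- **Row FOU** (the cell of the sum is almost uniform; medium; from COL, FEJ, CHX). `M = 2^a`, `w = 2^(a-m)`. `s0 = 2m + 3`, `k = 4^(s0+50)`. `X 0` arbitrary, `X i` (`i ≠ 0`) has diameter `≤ M/2^s0`, and at least `k/64` of the `i ≠ 0` have `vp (X i) ≥ (M/2^s0)²/2^96`. FEJ with `b = a - m`, `K = 4^m`: for `1 ≤ l ≤ K`: `2π l/M · M/2^s0 ≤ 2π 4^m/(8 · 4^m) ≤ 1`, CHX:
`‖ch‖² ≤ exp (-(11/12) 4π² l² 4^(-s0) 2^(-96) k/64) ≤ exp (-36 l² 4^50/2^102) = exp (-36 l²/4) = exp (-9 l²)`, `Σ_(l ≥ 1) exp (-9 l²) ≤ 1/100`. The collision probability is `≤ 4 2^(-m) (1 + 1/50) + 2^m/(2 · 4^m) ≤ 8 · 2^(-m)`. COL: `H ≥ log (2^m/8) = (m - 3) log 2`. -/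
def FOU_stmt : Prop := ∀ (m a c : ℕ) (X : Fin (4 ^ (2 * m + 53) + 1) → Finset ℕ), m ≤ a → 2 * m + 3 ≤ a → (∀ i, (X i).Nonempty) →
  (∀ i, i ≠ 0 → ∀ u ∈ X i, ∀ v ∈ X i, |(u : ℝ) - v| ≤ (2 : ℝ) ^ (a - (2 * m + 3))) →
  ((4 : ℝ) ^ (2 * m + 53) / 64 ≤ (({i | i ≠ 0 ∧ (4 : ℝ) ^ (a - (2 * m + 3)) / 2 ^ 96 ≤ vp (X i)} : Set (Fin (4 ^ (2 * m + 53) + 1))).ncard : ℝ)) →
    ((m : ℝ) - 3) * Real.log 2 ≤ H (Fintype.piFinset X) (fun u => (c + sm u) / 2 ^ (a - m) % 2 ^ m)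

/-- **Row SHF** (adding something independent costs at most one bit; short-medium; from HBS, HCH). `V = (c + Σ u_i)/w`, `w = 2^b`. Condition on all `u_i`, `i ≠ 0` (`H X V ≥ H X (V | rest)`, HSM or HCH with monotonicity): for fixed rest `t = c + Σ_(i ≠ 0) u_i` the function is `u ↦ (t + u)/w` on `X 0`, and `(t + u)/w - t/w - u/w ∈ {0, 1}`: so `(V, bit)` determines `u/w`: `H (X 0) (u/w) ≤ H (X 0) V + log 2`. -/
def SHF_stmt : Prop := ∀ (k b c : ℕ) (X : Fin (k + 1) → Finset ℕ), (∀ i, (X i).Nonempty) →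
  H (X 0) (fun u => u / 2 ^ b) - Real.log 2 ≤ H (Fintype.piFinset X) (fun u => (c + sm u) / 2 ^ b)

/-- **Row VAS** (the integer part of the sum has bounded entropy; short-medium; from SMH). `M = 2^a`, `k = 4^(s0+50)`, `s0 = 2m+3`, `2^s0 ≤ M`. `X 0 ⊆` an interval of length `M` (diameter `≤ M`), the others have diameter `≤ M/2^s0`. `V' = (c + Σ u_i)/M` (floor). `z₀ = (c + Σ_i mean (X i))/M`: `|V' - z₀| ≤ 1 + |u_0 - mean|/M + |Σ_(i ≠ 0) (u_i - mean)|/M ≤ 2 + |dev|`, `(2 + x)² ≤ 8 + 2x²`, and the average of `dev²` is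
`Σ_(i ≠ 0) vp (X i)/M² ≤ k (M/2^s0)²/M² = 4^50` (independence; `vp X ≤ diam²`). So the second moment is `≤ 8 + 2 · 4^50`, and SMH: `H ≤ log 5 + log (9 + 2^101) ≤ 73`. -/
def VAS_stmt : Prop := ∀ (m a c : ℕ) (X : Fin (4 ^ (2 * m + 53) + 1) → Finset ℕ), 2 * m + 3 ≤ a → (∀ i, (X i).Nonempty) →
  (∀ u ∈ X 0, ∀ v ∈ X 0, |(u : ℝ) - v| ≤ (2 : ℝ) ^ a) →
  (∀ i, i ≠ 0 → ∀ u ∈ X i, ∀ v ∈ X i, |(u : ℝ) - v| ≤ (2 : ℝ) ^ (a - (2 * m + 3))) →
    H (Fintype.piFinset X) (fun u => (c + sm u) / 2 ^ a) ≤ 73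

/-! ## Growth -/

open Classical in
/-- the proportion of the tuples with at least `k/64` nice nodes at the level `i` (the coordinate `0` is not counted) -/
noncomputable def PN (R : Finset ℕ) (N k i : ℕ) : ℝ :=
  (((Rk (k + 1) R).filter (fun u => (k : ℝ) / 64 ≤ ((Finset.univ.filter (fun l : Fin (k + 1) => l ≠ 0 ∧ nic R N i (px N i (u l)))).card : ℝ))).card : ℝ) / (Rk (k + 1) R).card

/-- **Row PNQ** (short-medium). The average over `Rk (k+1) R` of the number of the nice coordinates `l ≠ 0` is `k qq`. If `qq ≥ 1/32`: let `P = PN`; the number is `≤ k` on the set of `PN` and `< k/64 ≤ k qq/2` off it: `k qq ≤ P k + k qq/2`, so `P ≥ qq/2`. -/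
def PNQ_stmt : Prop := ∀ (R : Finset ℕ) (N k i : ℕ), R.Nonempty → 1 ≤ k → 1 / 32 ≤ qq R N i → qq R N i / 2 ≤ PN R N k i

/-- **Row STJ** (one scale; medium-long; from HBS, HCH, HSM, FOU, SHF, VAS). `k = 4^(2m+53)`, `s0 = 2m+3`, `X = Rk (k+1) R`, `S = sm`, `V = px N (j+m) ∘ S = S/w`, `w = 2^(N-j-m)`, `V' = px N j ∘ S = V/2^m`, `g u = (px N j (u 0), (px N (j+s0) (u l))_(l ≠ 0))`. `V'` is a function of `V`: `H X V - H X V' = H(V | V') ≥ H(V, g) - H(V', g)` (HSM: `H(V, g, V') + H(V') ≤ H(V, V') + H(g, V')`)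
`= Σ_fibres P (H_fibre V - H_fibre V')` (HCH twice). A fibre of `g` is a product of the nodes `nd R N j p_0` and `nd R N (j+s0) p_l` (`l ≠ 0`). With `a = N - j`, subtracting the left ends of the nodes: `V' ` has entropy `≤ 73` (VAS, `c` = 0, or `c` = anything); if at least `k/64` of the nodes `l ≠ 0` are nice then `H V ≥ H (V mod 2^m) ≥ (m-3) log 2` (FOU, HBS); in all cases
`H V ≥ H (nd R N j p_0) (px N (j+m)) - log 2` (SHF, `b = N-j-m`). The niceness depends only on the coordinates `l ≠ 0`, and the average of `H (nd R N j p_0) (px N (j+m))` over the fibres is `hh R N m j`: so `H X V - H X V' ≥ PN (m-3) log 2 + (1 - PN)(hh - log 2) - 73`. -/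
def STJ_stmt : Prop := ∀ (R : Finset ℕ) (N m j : ℕ), R.Nonempty → (∀ u ∈ R, u < 2 ^ N) → 4 ≤ m → j + (2 * m + 3) ≤ N →
  hh R N m j - 75 + PN R N (4 ^ (2 * m + 53)) (j + (2 * m + 3)) * (((m : ℝ) - 3) * Real.log 2 - hh R N m j) ≤
    H (Rk (4 ^ (2 * m + 53) + 1) R) (fun u => px N (j + m) (sm u)) - H (Rk (4 ^ (2 * m + 53) + 1) R) (fun u => px N j (sm u))

open Classical in
/-- **Row GRO** (growth; medium; from HBS, NIC, POR, PNQ, STJ). `s0 = 2m+3`, `k = 4^(2m+53)`, `L = log 2`, `b_j` = the proportion of the `u` with `¬ G u j`, `J = {j : j + s0 ≤ N}` (also `j + m ≤ N`), `X = Rk (k+1) R`, `V_j = px N j ∘ sm`. For each residue class mod `m` the sum of `H X V_(j+m) - H X V_j` telescopes and is `≤ H X sm` (`H X V_j` is nondecreasing in `j ≤ N`, `V_N = sm`): so `Σ_(j ∈ J) (H X V_(j+m) - H X V_j) ≤ m H X sm`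
(extend the sum by `J ⊆ {j : j + m ≤ N}`; every term is `≥ 0`). `Σ_(j ∈ J) hh_j = Σ_(N-s0 < j ≤ N - s0 + m) H_j - Σ_(j < m) H_j ≥ m (log |R| - s0 L) - m² L` (`H_j := H R (px N j) ≥ log |R| - (N-j) L`, `H_j ≤ (j) L`). By POR `(m-3) L - hh_j ≥ (mL/4)(1 - b_j) - 4L`. So with STJ: `m H X sm ≥ m log |R| - m (s0 + m) L - 75 (N+1) - 4 L (N+1) + (mL/4) Σ_J PN_j (1 - b_j)` (`0 ≤ PN ≤ 1`;
if `(m-3)L - hh_j` is negative nothing changes). PNQ: `Σ_J PN_j (1 - b_j) ≥ Σ_(j ∈ J, q_(j+s0) ≥ 1/32) (q_(j+s0)/2)(1 - b_j) ≥ (1/2)(Σ_(i = s0)^N q_i - (N+1)/32 - Σ b_j)`, `Σ_(i ≤ N) q_i ≥ N/16` (NIC), `q_i ≤ 1`, `Σ_j b_j ≤ N/128` (P1). So it is `≥ (1/2)(3N/128 - s0 - 1)`. Total: `m (H X sm - log |R|) ≥ (mL/8)(3N/128) - 78 N - C(m)`, and `78/m ≤ 78/2^17 < 0.0006 < 0.00067 < L/1024`: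
`H X sm - log |R| ≥ (3L/1024) N - 0.0006 N - C(m)/m ≥ N L/1024` for `N ≥ N0(m)`. -/
def GRO_stmt : Prop := ∀ m : ℕ, 2 ^ 17 ≤ m → ∃ N0 : ℕ, ∀ N : ℕ, N0 ≤ N → ∀ (R : Finset ℕ) (G : ℕ → ℕ → Prop), R.Nonempty → (∀ u ∈ R, u < 2 ^ N) →
  7 / 32 * (N * Real.log 2) ≤ Real.log R.card →
  (∀ u ∈ R, 128 * ((Finset.range (N + 1)).filter (fun j => ¬ G u j)).card ≤ N) →
  (∀ j p : ℕ, j + m ≤ N → ((R.filter (fun u => G u j ∧ px N j u = p)).image (px N (j + m))).card ^ 4 ≤ 2 ^ (3 * m)) →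
    Real.log R.card + N * Real.log 2 / 1024 ≤ H (Rk (4 ^ (2 * m + 53) + 1) R) sm

open Classical in
/-- **Row THE** (the additive energy theorem; short-medium; from BSE, KVM, GRO). `k = 4^(2m+53)`, `γ = 1/(8192 k)`, `N0` of GRO (and `≥ 1`). If `E(Y) > 2^(-γN) |Y|³` then `g₀ = G0 Y < γ N L`; `R` from BSE: `log |R| ≥ log |Y| - 4 γ N L ≥ (1/4 - 1/32) N L`; the hypotheses pass to `R ⊆ Y`; GRO and KVM: `N L/1024 ≤ k (8 g₀) < 8 k γ N L = N L/1024`: contradiction. -/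
def THE_stmt : Prop := ∀ m : ℕ, 2 ^ 17 ≤ m → ∃ (γ : ℝ) (N0 : ℕ), 0 < γ ∧ γ ≤ 1 ∧ ∀ N : ℕ, N0 ≤ N → ∀ (Y : Finset ℕ) (G : ℕ → ℕ → Prop), (∀ u ∈ Y, u < 2 ^ N) →
  2 ^ N ≤ Y.card ^ 4 →
  (∀ u ∈ Y, 128 * ((Finset.range (N + 1)).filter (fun j => ¬ G u j)).card ≤ N) →
  (∀ j p : ℕ, j + m ≤ N → ((Y.filter (fun u => G u j ∧ px N j u = p)).image (px N (j + m))).card ^ 4 ≤ 2 ^ (3 * m)) →
    ((QE Y).card : ℝ) ≤ (2 : ℝ) ^ (-(γ * N)) * (Y.card : ℝ) ^ 3

end Pool.Agent.HF
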